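import Mathlib

/-!
# Positive scalar curvature bordism for actions of finite groups: the objects (helper901)

`Γ` is a finite group, so the universal proper `Γ`-space is a point and a proper cocompact `Γ`-manifold
is a compact manifold with an action of `Γ`.
-/

set_option autoImplicit false

open Topology

namespace Pool.Agent.R901.SU

/-- A compact topological space with open connected components (for example, a compact manifold with
boundary) and a continuous action of `Γ`. -/
structure GSpace (Γ : Type) [Group Γ] where
  pts : Type
  [top : TopologicalSpace pts]
  [act : MulAction Γ pts]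
  [cont : ContinuousConstSMul Γ pts]
  [comp : CompactSpace pts]
  openComponents : ∀ x : pts, IsOpen (connectedComponent x)

attribute [instance] GSpace.top GSpace.act GSpace.cont GSpace.comp

variable {Γ : Type} [Group Γ]

/-- A continuous equivariant map. -/
structure GMap (X Y : GSpace Γ) where
  toFun : X.pts → Y.pts
  continuous : Continuous toFun
  equivariant : ∀ (g : Γ) (x : X.pts), toFun (g • x) = g • toFun x

/-- An invariant union of connected components: an invariant open and closed subset. -/
@[ext] structure Part (X : GSpace Γ) where
  carrier : Set X.pts
  clopen : IsClopen carrier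
  inv : ∀ (g : Γ) (x : X.pts), x ∈ carrier → g • x ∈ carrier

/-- The action on an invariant subset. -/
instance Part.instMulAction {X : GSpace Γ} (U : Part X) : MulAction Γ U.carrier where
  smul g x := ⟨g • x.1, U.inv g x.1 x.2⟩
  one_smul x := Subtype.ext (one_smul Γ x.1)
  mul_smul g h x := Subtype.ext (mul_smul g h x.1)

lemma Part.smul_val {X : GSpace Γ} (U : Part X) (g : Γ) (x : U.carrier) :
    (g • x).1 = g • x.1 := rfl

/-- The connected components of an open and closed subset. -/
lemma comp_subtype {X : Type*} [TopologicalSpace X] {U : Set X} (hU : IsClopen U) (x : U) :
    connectedComponent x = Subtype.val ⁻¹' connectedComponent x.1 := by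
  apply Set.Subset.antisymm
  · exact fun y hy => Continuous.image_connectedComponent_subset continuous_subtype_val x
      ⟨y, hy, rfl⟩
  · have h1 : connectedComponent x.1 ⊆ U := hU.connectedComponent_subset x.2
    have h2 : Subtype.val '' (Subtype.val ⁻¹' connectedComponent x.1 : Set U) =
        connectedComponent x.1 := by
      rw [Subtype.image_preimage_coe, Set.inter_eq_right]
      exact h1
    refine IsPreconnected.subset_connectedComponent ?_ (mem_connectedComponent (x := x.1))
    have h3 : IsPreconnected (Subtype.val '' (Subtype.val ⁻¹' connectedComponent x.1 : Set U)) := by
      rw [h2]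
      exact isPreconnected_connectedComponent
    exact Topology.IsInducing.subtypeVal.isPreconnected_image.1 h3

/-- An invariant union of connected components as a space with an action of `Γ`. -/
def GSpace.sub (X : GSpace Γ) (U : Part X) : GSpace Γ where
  pts := U.carrier
  cont := ⟨fun g => ((continuous_const_smul g).comp continuous_subtype_val).subtype_mk _⟩
  comp := isCompact_iff_compactSpace.1 U.clopen.1.isCompact
  openComponents x := by
    rw [comp_subtype U.clopen x]
    exact (X.openComponents x.1).preimage continuous_subtype_val

/-- The preimage. -/
def Part.comap {X Y : GSpace Γ} (U : Part Y) (f : GMap X Y) : Part X where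
  carrier := f.toFun ⁻¹' U.carrier
  clopen := U.clopen.preimage f.continuous
  inv g x hx := by
    show f.toFun (g • x) ∈ U.carrier
    rw [f.equivariant]
    exact U.inv g _ hx

/-- The restriction of an equivariant map to the preimage of `U`. -/
def GMap.restrict {X Y : GSpace Γ} (f : GMap X Y) (U : Part Y) :
    GMap (X.sub (U.comap f)) (Y.sub U) where
  toFun x := ⟨f.toFun x.1, x.2⟩
  continuous := (f.continuous.comp continuous_subtype_val).subtype_mk _
  equivariant g x := Subtype.ext (f.equivariant g x.1)

/-- The action of `Γ` on `X × B` through the first factor. -/
@[reducible] def prodAct (X : Type) [MulAction Γ X] (B : Type) : MulAction Γ (X × B) where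
  smul g x := (g • x.1, x.2)
  one_smul x := Prod.ext (one_smul Γ x.1) rfl
  mul_smul g h x := Prod.ext (mul_smul g h x.1) rfl

/-- The product with a connected compact space, on which `Γ` acts trivially. -/
def GSpace.prod (X : GSpace Γ) (B : Type) [TopologicalSpace B] [CompactSpace B]
    [ConnectedSpace B] : GSpace Γ where
  pts := X.pts × B
  act := prodAct X.pts B
  cont := letI := prodAct (Γ := Γ) X.pts B
    ⟨fun g => ((continuous_const_smul g).comp continuous_fst).prodMk continuous_snd⟩
  openComponents x := by
    have h : connectedComponent x = Prod.fst ⁻¹' connectedComponent x.1 := by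
      apply Set.Subset.antisymm
      · exact fun y hy => Continuous.image_connectedComponent_subset continuous_fst x ⟨y, hy, rfl⟩
      · have h2 : (Prod.fst ⁻¹' connectedComponent x.1 : Set (X.pts × B)) =
            connectedComponent x.1 ×ˢ Set.univ := by ext; simp
        rw [h2]
        exact (isPreconnected_connectedComponent.prod isPreconnected_univ).subset_connectedComponent
          ⟨mem_connectedComponent, Set.mem_univ _⟩
    rw [h]
    exact (X.openComponents x.1).preimage continuous_fst

/-- The projection of the product. -/
def GSpace.fst (X : GSpace Γ) (B : Type) [TopologicalSpace B] [CompactSpace B]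
    [ConnectedSpace B] : GMap (X.prod B) X where
  toFun := Prod.fst
  continuous := continuous_fst
  equivariant _ _ := rfl

/-- A finite set with an action of `Γ` as a discrete space. -/
def GSpace.ofSet (S : Type) [Finite S] [MulAction Γ S] : GSpace Γ :=
  letI : TopologicalSpace S := ⊥
  haveI : DiscreteTopology S := ⟨rfl⟩
  { pts := S
    cont := ⟨fun _ => continuous_of_discreteTopology⟩
    comp := Finite.compactSpace
    openComponents := fun _ => isOpen_discrete _ }

end Pool.Agent.R901.SU
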