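import Pool.Agent.R901.SU.Types

/-!
# Two sets with an action of `ℤ/2 × ℤ/2` and equivalent permutation representations (helper901)
-/

set_option autoImplicit false

namespace Pool.Agent.R901.SU

universe u v

/-- The group `ℤ/2 × ℤ/2`. -/
abbrev Klein : Type := Multiplicative (ZMod 2 × ZMod 2)

/-- The three nontrivial characters. -/
def chi : Fin 3 → Klein → ZMod 2 :=
  ![fun g => g.toAdd.1, fun g => g.toAdd.2, fun g => g.toAdd.1 + g.toAdd.2]

/-- The set `Γ ∪ {p, q}` with `p`, `q` fixed. -/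
def S₁ : Type := Klein ⊕ Bool

/-- The set `Γ/A ∪ Γ/B ∪ Γ/C`, where `A`, `B`, `C` are the subgroups of order two. -/
def S₂ : Type := Fin 3 × ZMod 2

instance : Fintype S₁ := inferInstanceAs (Fintype (Klein ⊕ Bool))
instance : DecidableEq S₁ := inferInstanceAs (DecidableEq (Klein ⊕ Bool))
instance : Fintype S₂ := inferInstanceAs (Fintype (Fin 3 × ZMod 2))
instance : DecidableEq S₂ := inferInstanceAs (DecidableEq (Fin 3 × ZMod 2))

/-- the action on `S₁` -/
def smul₁ (g : Klein) : S₁ → S₁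
  | Sum.inl h => Sum.inl (g * h)
  | Sum.inr b => Sum.inr b

/-- the action on `S₂` -/
def smul₂ (g : Klein) (s : S₂) : S₂ := (s.1, chi s.1 g + s.2)

instance : MulAction Klein S₁ where
  smul := smul₁
  one_smul := by
    show ∀ s : S₁, smul₁ 1 s = s
    decide
  mul_smul := by
    show ∀ (g h : Klein) (s : S₁), smul₁ (g * h) s = smul₁ g (smul₁ h s)
    decide

instance : MulAction Klein S₂ where
  smul := smul₂
  one_smul := by
    show ∀ s : S₂, smul₂ 1 s = s
    decide
  mul_smul := by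
    show ∀ (g h : Klein) (s : S₂), smul₂ (g * h) s = smul₂ g (smul₂ h s)
    decide

/-- the matrix of the equivalence -/
def matA : Matrix S₂ S₁ ℤ := fun t s =>
  match s with
  | Sum.inl g => if chi t.1 g = t.2 then 1 else 0
  | Sum.inr b => if t.1 = (if b then 1 else 0) then 1 else 0

/-- four times the inverse matrix -/
def matN : Matrix S₁ S₂ ℤ := fun s t =>
  match s with
  | Sum.inl g => if t.1 = 2 then (if chi t.1 g = t.2 then 2 else 0)
      else (if chi t.1 g = t.2 then 1 else -1)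
  | Sum.inr b => if t.1 = 2 then -2 else if t.1 = (if b then 1 else 0) then 2 else 0

lemma mul₁ : matN * matA = (4 : ℤ) • (1 : Matrix S₁ S₁ ℤ) := by
  have h : ∀ s u : S₁, (matN * matA) s u = ((4 : ℤ) • (1 : Matrix S₁ S₁ ℤ)) s u := by
    decide +kernel
  exact Matrix.ext h

lemma mul₂ : matA * matN = (4 : ℤ) • (1 : Matrix S₂ S₂ ℤ) := by
  have h : ∀ s u : S₂, (matA * matN) s u = ((4 : ℤ) • (1 : Matrix S₂ S₂ ℤ)) s u := by
    decide +kernel
  exact Matrix.ext h

lemma matA_smul : ∀ (g : Klein) (t : S₂) (s : S₁), matA (smul₂ g⁻¹ t) s = matA t (smul₁ g s) := by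
  decide +kernel

lemma map_mul_map {α β : Type} [Fintype β] [DecidableEq α] (M : Matrix α β ℤ)
    (N : Matrix β α ℤ) (h : M * N = (4 : ℤ) • (1 : Matrix α α ℤ)) (v : α → ℝ) [Fintype α] :
    (M.map (Int.cast : ℤ → ℝ)).mulVec ((N.map (Int.cast : ℤ → ℝ)).mulVec v) = (4 : ℝ) • v := by
  rw [Matrix.mulVec_mulVec]
  have h1 : M.map (Int.cast : ℤ → ℝ) * N.map (Int.cast : ℤ → ℝ) =
      (4 : ℝ) • (1 : Matrix α α ℝ) := by
    have h2 := congrArg (fun P : Matrix α α ℤ => P.map (Int.castRingHom ℝ)) h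
    simp only [Matrix.map_mul] at h2
    refine h2.trans ?_
    ext i j
    rw [Matrix.map_apply, Matrix.smul_apply, Matrix.smul_apply, Matrix.one_apply,
      Matrix.one_apply]
    split_ifs <;> simp
  rw [h1, Matrix.smul_mulVec, Matrix.one_mulVec]

/-- The equivalence of the two permutation representations. -/
theorem repEquiv : RepEquiv (permRep Klein S₁) (permRep Klein S₂) := by
  let A : Matrix S₂ S₁ ℝ := matA.map (Int.cast : ℤ → ℝ)
  let N : Matrix S₁ S₂ ℝ := matN.map (Int.cast : ℤ → ℝ)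
  refine ⟨{ toFun := fun v => A.mulVec v
            map_add' := fun v w => Matrix.mulVec_add A v w
            map_smul' := fun c v => Matrix.mulVec_smul A c v
            invFun := fun v => (4 : ℝ)⁻¹ • N.mulVec v
            left_inv := fun v => ?_
            right_inv := fun v => ?_ }, fun g v => ?_⟩
  · show (4 : ℝ)⁻¹ • N.mulVec (A.mulVec v) = v
    rw [map_mul_map matN matA mul₁ v, smul_smul]
    norm_num
  · show A.mulVec ((4 : ℝ)⁻¹ • N.mulVec v) = v
    rw [Matrix.mulVec_smul, map_mul_map matA matN mul₂ v, smul_smul]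
    norm_num
  · show A.mulVec (fun s => v (g⁻¹ • s)) = fun t => A.mulVec v (g⁻¹ • t)
    funext t
    show ∑ s, A t s * v (g⁻¹ • s) = ∑ s, A (g⁻¹ • t) s * v s
    rw [← Equiv.sum_comp (MulAction.toPerm g : Equiv.Perm S₁) fun s => A t s * v (g⁻¹ • s)]
    refine Finset.sum_congr rfl fun s _ => ?_
    rw [MulAction.toPerm_apply, inv_smul_smul]
    congr 1
    show ((matA t (smul₁ g s) : ℤ) : ℝ) = ((matA (smul₂ g⁻¹ t) s : ℤ) : ℝ)
    rw [matA_smul]

lemma free_point : ∀ g : Klein, smul₁ g (Sum.inl 1) = (Sum.inl 1 : Klein ⊕ Bool) ↔ g = 1 := by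
  decide

lemma no_free_point : ∀ s : S₂, ∃ g : Klein, g ≠ 1 ∧ smul₂ g s = s := by
  decide

/-- `S₁` has points with trivial stabilizer and `S₂` has none. -/
theorem card_ne : Nat.card (OrbitType Klein S₁ ⊥) ≠ Nat.card (OrbitType Klein S₂ ⊥) := by
  have h1 : Nonempty (OrbitType Klein S₁ ⊥) := by
    refine ⟨⟨(Sum.inl 1 : Klein ⊕ Bool), 1, fun g => ?_⟩⟩
    rw [inv_one, one_mul, mul_one, Subgroup.mem_bot]
    exact free_point g
  have h2 : IsEmpty (OrbitType Klein S₂ ⊥) := by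
    refine ⟨fun s => ?_⟩
    obtain ⟨s, γ, hs⟩ := s
    obtain ⟨g, hg, hgs⟩ := no_free_point s
    have h3 := (hs g).1 hgs
    rw [Subgroup.mem_bot] at h3
    apply hg
    have h4 : g = γ * (γ⁻¹ * g * γ) * γ⁻¹ := by group
    rw [h4, h3]
    group
  have h3 : 0 < Nat.card (OrbitType Klein S₁ ⊥) := Nat.card_pos
  have h4 : Nat.card (OrbitType Klein S₂ ⊥) = 0 := by
    rw [Nat.card_eq_zero]
    exact Or.inl h2
  omega

/-- **The map `Θ` is not injective for the group `ℤ/2 × ℤ/2` and `n = 8 k`.** -/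
theorem not_injective {𝒢 : Geometry.{u} Klein} (h𝒢 : 𝒢.Lawful) (I : StolzMap.{u, v} 𝒢) (k : ℕ) :
    ¬ Function.Injective (I.theta (Geometry.dim 0 k)) := by
  intro h
  have h1 : 𝒢.cl ((𝒢.ofSet S₁).bottPow k) = 𝒢.cl ((𝒢.ofSet S₂).bottPow k) :=
    h ((StolzMap.theta_eq_iff I k).2 repEquiv)
  exact card_ne (StolzMap.card_eq_of_cl_eq I h𝒢 k h1 ⊥)

end Pool.Agent.R901.SU
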