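import Pool.Agent.R901.SU.Theory

/-!
# The properties listed in `Geometry`, `Lawful` and `StolzMap` are consistent (helper901)

A degenerate model: the manifolds of every dimension are the finite sets with an action of `Γ`.
-/

set_option autoImplicit false

open Topology

namespace Pool.Agent.R901.SU

universe u

variable (Γ : Type) [Group Γ]

/-- A finite discrete space. -/
def FinDisc (X : GSpace Γ) : Prop := Finite X.pts ∧ DiscreteTopology X.pts

variable {Γ}

lemma fix_aux {X W : GSpace Γ} (hW : FinDisc Γ W) (i : GMap X W) (γ : Γ) (x : X.pts)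
    (h : ∀ᶠ y in 𝓝 x, γ • y = y) : ∀ w ∈ connectedComponent (i.toFun x), γ • w = w := by
  have := hW.2
  intro w hw
  have h1 : connectedComponent (i.toFun x) = {i.toFun x} :=
    connectedComponent_eq_singleton _
  rw [h1, Set.mem_singleton_iff] at hw
  rw [hw, ← i.equivariant, h.self_of_nhds]

lemma bij_restrict {X W : GSpace Γ} (i : GMap X W) (h : Function.Bijective i.toFun) (U : Part W) :
    Function.Bijective (i.restrict U).toFun := by
  constructor
  · intro x y hxy
    exact Subtype.ext (h.1 (congrArg Subtype.val hxy))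
  · intro w
    obtain ⟨x, hx⟩ := h.2 w.1
    exact ⟨⟨x, by show i.toFun x ∈ U.carrier; rw [hx]; exact w.2⟩, Subtype.ext hx⟩

lemma finDisc_sub {X : GSpace Γ} (h : FinDisc Γ X) (U : Part X) : FinDisc Γ (X.sub U) := by
  obtain ⟨h1, h2⟩ := h
  exact ⟨inferInstanceAs (Finite U.carrier), inferInstanceAs (DiscreteTopology U.carrier)⟩

lemma finDisc_prod {X : GSpace Γ} (h : FinDisc Γ X) : FinDisc Γ (X.prod Unit) := by
  obtain ⟨h1, h2⟩ := h
  exact ⟨inferInstanceAs (Finite (X.pts × Unit)), inferInstanceAs (DiscreteTopology (X.pts × Unit))⟩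

/-- The degenerate geometry. -/
def toy (Γ : Type) [Group Γ] [Finite Γ] : Geometry.{0} Γ where
  Geo _ X := PLift (FinDisc Γ X)
  Psc _ := Unit
  BdPsc _ := Unit
  resGeo g U := ⟨finDisc_sub g.down U⟩
  resPsc _ _ := ()
  resBdPsc _ _ := ()
  Joins := fun {_ _ _ _ _ _} _ {_} _ {_} _ _ i₁ i₂ _ =>
    Function.Bijective i₁.toFun ∧ Function.Bijective i₂.toFun
  joins_inj₁ h := h.1.1
  joins_inj₂ h := h.2.1
  joins_res h U := ⟨bij_restrict _ h.1 U, bij_restrict _ h.2 U⟩
  joins_fix₁ := by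
    intro n X₁ X₂ V W g₁ h₁ g₂ h₂ gV H gW i₁ i₂ iV _ γ x hx
    exact fix_aux gW.down i₁ γ x hx
  joins_fix₂ := by
    intro n X₁ X₂ V W g₁ h₁ g₂ h₂ gV H gW i₁ i₂ iV _ γ x hx
    exact fix_aux gW.down i₂ γ x hx
  B := Unit
  prodGeo g := ⟨finDisc_prod g.down⟩
  prodBdPsc _ := ()
  ofSetGeo S _ _ := ⟨⟨inferInstanceAs (Finite S), by
    let _ : TopologicalSpace S := ⊥
    exact (⟨rfl⟩ : DiscreteTopology S)⟩⟩
  ofSetBdPsc _ _ _ := ()

/-- the identity -/
def GMap.id (X : GSpace Γ) : GMap X X := ⟨fun x => x, continuous_id, fun _ _ => rfl⟩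

lemma toy_related [Finite Γ] {n : ℕ} {L L' : (toy Γ).Triple n} (i : GMap L.X L'.X)
    (hi : Function.Bijective i.toFun) : Geometry.Related L L' :=
  ⟨L'.X, L'.X, ⟨L'.geo.down⟩, (), ⟨L'.geo.down⟩, i, GMap.id _, GMap.id _, hi, Function.bijective_id⟩

/-- the product of a map with the identity -/
def GMap.prodId {X Y : GSpace Γ} (i : GMap X Y) : GMap (X.prod Unit) (Y.prod Unit) where
  toFun x := (i.toFun x.1, x.2)
  continuous := (i.continuous.comp continuous_fst).prodMk continuous_snd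
  equivariant g x := Prod.ext (i.equivariant g x.1) rfl

lemma bij_prodId {X Y : GSpace Γ} (i : GMap X Y) (h : Function.Bijective i.toFun) :
    Function.Bijective i.prodId.toFun := by
  constructor
  · intro x y hxy
    exact Prod.ext (h.1 (congrArg Prod.fst hxy)) rfl
  · rintro ⟨y, b⟩
    obtain ⟨x, hx⟩ := h.2 y
    exact ⟨(x, b), Prod.ext hx rfl⟩

theorem toy_lawful (Γ : Type) [Group Γ] [Finite Γ] : (toy Γ).Lawful where
  related_bott := by
    rintro n L L' ⟨V, W, gV, H, gW, i₁, i₂, iV, h₁, h₂⟩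
    exact ⟨W.prod Unit, W.prod Unit, ⟨finDisc_prod gW.down⟩, (), ⟨finDisc_prod gW.down⟩,
      i₁.prodId, i₂.prodId, GMap.id _, bij_prodId i₁ h₁, bij_prodId i₂ h₂⟩
  related_prod L U := by
    refine toy_related ⟨fun x => (⟨x.1.1, x.2⟩, x.1.2), ?_, fun _ _ => rfl⟩ ⟨?_, ?_⟩
    · exact ((continuous_fst.comp continuous_subtype_val).subtype_mk _).prodMk
        (continuous_snd.comp continuous_subtype_val)
    · intro x y h
      have h1 : x.1.1 = y.1.1 := congrArg Subtype.val (congrArg Prod.fst h)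
      exact Subtype.ext (Prod.ext h1 rfl)
    · rintro ⟨x, b⟩
      exact ⟨⟨(x.1, b), x.2⟩, rfl⟩
  related_ofSet S _ _ U := by
    refine toy_related ⟨fun x => x, ?_, fun _ _ => rfl⟩ Function.bijective_id
    have : DiscreteTopology ((((toy Γ).ofSet S).sub U).X).pts :=
      ((((toy Γ).ofSet S).sub U).geo).down.2
    exact continuous_of_discreteTopology

section cls

variable {V V' V'' : Type} [AddCommGroup V] [Module ℝ V] [AddCommGroup V'] [Module ℝ V']
  [AddCommGroup V''] [Module ℝ V'']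

lemma RepEquiv.refl (ρ : Representation ℝ Γ V) : RepEquiv ρ ρ := ⟨LinearEquiv.refl _ _, fun _ _ => rfl⟩

lemma RepEquiv.symm {ρ : Representation ℝ Γ V} {ρ' : Representation ℝ Γ V'} (h : RepEquiv ρ ρ') :
    RepEquiv ρ' ρ := by
  obtain ⟨e, he⟩ := h
  refine ⟨e.symm, fun g v => ?_⟩
  rw [LinearEquiv.symm_apply_eq, he, LinearEquiv.apply_symm_apply]

lemma RepEquiv.trans {ρ : Representation ℝ Γ V} {ρ' : Representation ℝ Γ V'}
    {ρ'' : Representation ℝ Γ V''} (h : RepEquiv ρ ρ') (h' : RepEquiv ρ' ρ'') : RepEquiv ρ ρ'' := by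
  obtain ⟨e, he⟩ := h
  obtain ⟨e', he'⟩ := h'
  exact ⟨e.trans e', fun g v => by rw [LinearEquiv.trans_apply, he, he']; rfl⟩

/-- transport -/
noncomputable def transport (e : V ≃ₗ[ℝ] V') (ρ : Representation ℝ Γ V) : Representation ℝ Γ V' where
  toFun g := e.conj (ρ g)
  map_one' := by rw [map_one]; exact e.conj_id
  map_mul' g h := by rw [map_mul]; exact e.conj_comp _ _

lemma repEquiv_transport (e : V ≃ₗ[ℝ] V') (ρ : Representation ℝ Γ V) :
    RepEquiv ρ (transport e ρ) :=
  ⟨e, fun g v => by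
    show e (ρ g v) = e.conj (ρ g) (e v)
    rw [LinearEquiv.conj_apply_apply, LinearEquiv.symm_apply_apply]⟩

variable (Γ)

/-- Equivalence classes of representations. -/
def repSetoid : Setoid (Σ n : ℕ, Representation ℝ Γ (Fin n → ℝ)) where
  r a b := RepEquiv a.2 b.2
  iseqv := ⟨fun a => RepEquiv.refl a.2, fun h => h.symm, fun h h' => h.trans h'⟩

variable {Γ}

/-- The class. -/
noncomputable def toyCls [Module.Finite ℝ V] (ρ : Representation ℝ Γ V) :
    FreeAbelianGroup (Quotient (repSetoid Γ)) :=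
  FreeAbelianGroup.of (Quotient.mk (repSetoid Γ)
    ⟨Module.finrank ℝ V, transport (Module.finBasis ℝ V).equivFun ρ⟩)

lemma toyCls_eq_iff [Module.Finite ℝ V] [Module.Finite ℝ V'] (ρ : Representation ℝ Γ V)
    (ρ' : Representation ℝ Γ V') : toyCls ρ = toyCls ρ' ↔ RepEquiv ρ ρ' := by
  unfold toyCls
  rw [FreeAbelianGroup.of_injective.eq_iff]
  constructor
  · intro h
    have h1 : RepEquiv (transport (Module.finBasis ℝ V).equivFun ρ)
      (transport (Module.finBasis ℝ V').equivFun ρ') := Quotient.exact h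
    exact (repEquiv_transport _ ρ).trans (h1.trans (repEquiv_transport _ ρ').symm)
  · intro h
    refine Quotient.sound ?_
    exact (repEquiv_transport _ ρ).symm.trans (h.trans (repEquiv_transport _ ρ'))

end cls

lemma repEquiv_of_bij {X Y : Type} [MulAction Γ X] [MulAction Γ Y] (f : X → Y)
    (hf : Function.Bijective f) (he : ∀ (g : Γ) (x : X), f (g • x) = g • f x) :
    RepEquiv (permRep Γ X) (permRep Γ Y) := by
  let e := Equiv.ofBijective f hf
  refine ⟨LinearEquiv.funCongrLeft ℝ ℝ e.symm, fun g v => ?_⟩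
  funext y
  obtain ⟨x, rfl⟩ := hf.2 y
  have h1 : e.symm (f x) = x := e.symm_apply_apply x
  have h2 : e.symm (g⁻¹ • f x) = g⁻¹ • x := by
    rw [← he]
    exact e.symm_apply_apply _
  show v (g⁻¹ • e.symm (f x)) = v (e.symm (g⁻¹ • f x))
  rw [h1, h2]

lemma toy_finite [Finite Γ] {n : ℕ} (L : (toy Γ).Triple n) : Finite L.X.pts := L.geo.down.1

/-- The degenerate index of a triple. -/
noncomputable def toyInd [Finite Γ] {n : ℕ} (L : (toy Γ).Triple n) :
    FreeAbelianGroup (Quotient (repSetoid Γ)) :=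
  haveI := toy_finite L
  toyCls (permRep Γ L.X.pts)

lemma toyInd_related [Finite Γ] {n : ℕ} {L L' : (toy Γ).Triple n} (h : Geometry.Related L L') :
    toyInd L = toyInd L' := by
  obtain ⟨V, W, gV, H, gW, i₁, i₂, iV, h₁, h₂⟩ := h
  have := toy_finite L
  have := toy_finite L'
  exact (toyCls_eq_iff _ _).2 ((repEquiv_of_bij i₁.toFun h₁ i₁.equivariant).trans
    (repEquiv_of_bij i₂.toFun h₂ i₂.equivariant).symm)

lemma toyInd_bott [Finite Γ] {n : ℕ} (L : (toy Γ).Triple n) : toyInd L.bott = toyInd L := by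
  have := toy_finite L
  have := toy_finite L.bott
  exact (toyCls_eq_iff _ _).2 (repEquiv_of_bij (X := L.bott.X.pts) (Y := L.X.pts)
    (fun x => Prod.fst x) ⟨fun x y h => Prod.ext h rfl, fun x => ⟨(x, ()), rfl⟩⟩ fun _ _ => rfl)

lemma toyInd_bottPow [Finite Γ] {n : ℕ} (L : (toy Γ).Triple n) (k : ℕ) :
    toyInd (L.bottPow k) = toyInd L := by
  induction k with
  | zero => rfl
  | succ k ih => exact (toyInd_bott _).trans ih

/-- The degenerate map `Θ`. -/
noncomputable def toyMap (Γ : Type) [Group Γ] [Finite Γ] : StolzMap.{0, 0} (toy Γ) where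
  KO _ := FreeAbelianGroup (Quotient (repSetoid Γ))
  theta n := Quot.lift (fun p => toyInd p.2) (by
    rintro _ _ (h | L)
    · exact toyInd_related h
    · exact (toyInd_bott L).symm)
  cls _ := fun ρ => toyCls ρ
  cls_eq_iff _ := fun ρ ρ' => toyCls_eq_iff ρ ρ'
  theta_ofSet k S _ _ := toyInd_bottPow ((toy Γ).ofSet S) k

end Pool.Agent.R901.SU
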