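import Pool.Agent.R901.SU.Theory

/-!
# The decomposition by the generic stabilizers of the components (helper901)
-/

set_option autoImplicit false

open Topology

namespace Pool.Agent.R901.SU

universe u v

variable {Γ : Type} [Group Γ]

lemma mem_conn_smul (X : GSpace Γ) (g : Γ) (x y : X.pts) (h : y ∈ connectedComponent x) :
    g • y ∈ connectedComponent (g • x) :=
  Continuous.image_connectedComponent_subset (continuous_const_smul g) x ⟨y, h, rfl⟩

/-- `g` fixes all points of the connected component of `x`. -/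
def Fixes (X : GSpace Γ) (g : Γ) (x : X.pts) : Prop := ∀ y ∈ connectedComponent x, g • y = y

lemma fixes_of_mem {X : GSpace Γ} {g : Γ} {x y : X.pts} (h : y ∈ connectedComponent x) :
    Fixes X g y ↔ Fixes X g x := by
  unfold Fixes
  rw [connectedComponent_eq h]

lemma fixes_smul {X : GSpace Γ} {g γ : Γ} {x : X.pts} :
    Fixes X g (γ • x) ↔ Fixes X (γ⁻¹ * g * γ) x := by
  constructor
  · intro h y hy
    rw [mul_smul, mul_smul, h _ (mem_conn_smul X γ x y hy), inv_smul_smul]
  · intro h y hy
    have h1 := mem_conn_smul X γ⁻¹ _ y hy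
    rw [inv_smul_smul] at h1
    have h2 := h _ h1
    rw [mul_smul, mul_smul, smul_inv_smul] at h2
    have h3 := congrArg (fun z => γ • z) h2
    simpa using h3

/-- The generic stabilizer of the component of `x` is conjugate to `K`. -/
def OfType (X : GSpace Γ) (K : Subgroup Γ) (x : X.pts) : Prop :=
  ∃ γ : Γ, ∀ g : Γ, Fixes X g x ↔ γ⁻¹ * g * γ ∈ K

lemma ofType_of_mem {X : GSpace Γ} {K : Subgroup Γ} {x y : X.pts}
    (h : y ∈ connectedComponent x) : OfType X K y ↔ OfType X K x := by
  unfold OfType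
  simp only [fixes_of_mem h]

/-- The union of the components with a generic stabilizer conjugate to `K`. -/
def typePart (X : GSpace Γ) (K : Subgroup Γ) : Part X where
  carrier := {x | OfType X K x}
  clopen := by
    constructor
    · rw [← isOpen_compl_iff, isOpen_iff_mem_nhds]
      intro x hx
      refine Filter.mem_of_superset ((X.openComponents x).mem_nhds mem_connectedComponent) ?_
      intro y hy h
      exact hx ((ofType_of_mem hy).1 h)
    · rw [isOpen_iff_mem_nhds]
      intro x hx
      refine Filter.mem_of_superset ((X.openComponents x).mem_nhds mem_connectedComponent) ?_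
      intro y hy
      exact (ofType_of_mem hy).2 hx
  inv := by
    rintro δ x ⟨γ, h⟩
    refine ⟨δ * γ, fun g => ?_⟩
    rw [fixes_smul, h]
    have : γ⁻¹ * (δ⁻¹ * g * δ) * γ = (δ * γ)⁻¹ * g * (δ * γ) := by group
    rw [this]

lemma comap_typePart {X W : GSpace Γ} (i : GMap X W) (hi : Function.Injective i.toFun)
    (hfix : ∀ (γ : Γ) (x : X.pts), (∀ᶠ y in 𝓝 x, γ • y = y) →
      ∀ w ∈ connectedComponent (i.toFun x), γ • w = w) (K : Subgroup Γ) :
    (typePart W K).comap i = typePart X K := by
  have key : ∀ (g : Γ) (x : X.pts), Fixes W g (i.toFun x) ↔ Fixes X g x := by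
    intro g x
    constructor
    · intro h y hy
      apply hi
      rw [i.equivariant]
      exact h _ (Continuous.image_connectedComponent_subset i.continuous x ⟨y, hy, rfl⟩)
    · intro h
      exact hfix g x (Filter.mem_of_superset
        ((X.openComponents x).mem_nhds mem_connectedComponent) h)
  ext x
  show OfType W K (i.toFun x) ↔ OfType X K x
  unfold OfType
  simp only [key]

lemma comap_fst_typePart (X : GSpace Γ) (B : Type) [TopologicalSpace B] [CompactSpace B]
    [ConnectedSpace B] (K : Subgroup Γ) :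
    (typePart X K).comap (X.fst B) = typePart (X.prod B) K := by
  have key : ∀ (g : Γ) (x : (X.prod B).pts), Fixes (X.prod B) g x ↔ Fixes X g x.1 := by
    intro g x
    constructor
    · intro h y hy
      have h1 : ((y, x.2) : X.pts × B) ∈ connectedComponent (x : X.pts × B) := by
        have h2 : IsPreconnected (connectedComponent x.1 ×ˢ (Set.univ : Set B)) :=
          isPreconnected_connectedComponent.prod isPreconnected_univ
        exact h2.subset_connectedComponent (x := x) ⟨mem_connectedComponent, Set.mem_univ _⟩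
          ⟨hy, Set.mem_univ _⟩
      exact congrArg Prod.fst (h _ h1)
    · intro h y hy
      have h1 : y.1 ∈ connectedComponent x.1 :=
        Continuous.image_connectedComponent_subset (continuous_fst (X := X.pts) (Y := B)) x
          ⟨y, hy, rfl⟩
      exact Prod.ext (h _ h1) rfl
  ext x
  show OfType X K x.1 ↔ OfType (X.prod B) K x
  unfold OfType
  simp only [key]

lemma fixes_ofSet (S : Type) [Finite S] [MulAction Γ S] (g : Γ) (s : S) :
    Fixes (GSpace.ofSet (Γ := Γ) S) g s ↔ g • s = s := by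
  let _ : TopologicalSpace S := ⊥
  have : DiscreteTopology S := ⟨rfl⟩
  have h : connectedComponent s = {s} := connectedComponent_eq_singleton s
  constructor
  · intro hf
    exact hf s mem_connectedComponent
  · intro hs y hy
    have hy' : y ∈ connectedComponent s := hy
    rw [h] at hy'
    have : y = s := hy'
    rw [this]
    exact hs

namespace Geometry

variable [Finite Γ] {𝒢 : Geometry.{u} Γ}

/-- The part of a triple with generic stabilizers conjugate to `K`. -/
def Triple.part {n : ℕ} (L : 𝒢.Triple n) (K : Subgroup Γ) : 𝒢.Triple n := L.sub (typePart L.X K)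

/-- **The decomposition is compatible with the identifications.** -/
theorem Related.part {n : ℕ} {L L' : 𝒢.Triple n} (h : Related L L') (K : Subgroup Γ) :
    Related (L.part K) (L'.part K) := by
  obtain ⟨V, W, gV, H, gW, i₁, i₂, iV, hJ⟩ := h
  have e₁ := comap_typePart i₁ (𝒢.joins_inj₁ hJ) (𝒢.joins_fix₁ hJ) K
  have e₂ := comap_typePart i₂ (𝒢.joins_inj₂ hJ) (𝒢.joins_fix₂ hJ) K
  have h1 : Related (L.sub ((typePart W K).comap i₁)) (L'.sub ((typePart W K).comap i₂)) :=
    ⟨_, _, _, _, _, _, _, _, 𝒢.joins_res hJ (typePart W K)⟩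
  rw [e₁, e₂] at h1
  exact h1

end Geometry

namespace Geometry

variable [Finite Γ] {𝒢 : Geometry.{u} Γ}

/-- The classes of related triples are equal. -/
lemma mk_eq {n k : ℕ} {L L' : 𝒢.Triple (dim n k)} (h : Related L L') :
    (Quot.mk (𝒢.Step n) ⟨k, L⟩ : 𝒢.R n) = Quot.mk (𝒢.Step n) ⟨k, L'⟩ :=
  Quot.sound (Step.related h)

lemma related_part_bott (h𝒢 : 𝒢.Lawful) (K : Subgroup Γ) {n : ℕ} (L : 𝒢.Triple n) :
    Related (L.bott.part K) (L.part K).bott := by
  have h1 := h𝒢.related_prod L (typePart L.X K)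
  have h2 : (L.bott).sub ((typePart L.X K).comap (L.X.fst 𝒢.B)) = L.bott.part K :=
    congrArg (fun U => (L.bott).sub U) (comap_fst_typePart L.X 𝒢.B K)
  rw [h2] at h1
  exact h1

/-- **The decomposition of `R_n^spin(pt)^Γ[B⁻¹]` by the generic stabilizers**: the class of `L` is mapped
to the class of the part `L_K` of `L`. -/
def partR (h𝒢 : 𝒢.Lawful) (K : Subgroup Γ) (n : ℕ) : 𝒢.R n → 𝒢.R n :=
  Quot.lift (fun p => Quot.mk (𝒢.Step n) ⟨p.1, p.2.part K⟩) (by
    rintro _ _ (h | L)
    · exact mk_eq (h.part K)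
    · exact (Quot.sound (Step.bott _)).trans (mk_eq (related_part_bott h𝒢 K L)).symm)

theorem partR_cl (h𝒢 : 𝒢.Lawful) (K : Subgroup Γ) {n : ℕ} (L : 𝒢.Triple n) :
    partR h𝒢 K n (𝒢.cl L) = 𝒢.cl (L.part K) := rfl

/-- Equivalent triples have the same class. -/
lemma cl_eq_of_eqv {n : ℕ} {L L' : 𝒢.Triple n} (h : Relation.EqvGen Related L L') :
    𝒢.cl L = 𝒢.cl L' := by
  induction h with
  | rel _ _ h => exact mk_eq (k := 0) h
  | refl _ => rfl
  | symm _ _ _ ih => exact ih.symm
  | trans _ _ _ _ _ ih ih' => exact ih.trans ih'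

lemma eqv_bott (h𝒢 : 𝒢.Lawful) {n : ℕ} {L L' : 𝒢.Triple n}
    (h : Relation.EqvGen Related L L') : Relation.EqvGen Related L.bott L'.bott := by
  induction h with
  | rel _ _ h => exact Relation.EqvGen.rel _ _ (h𝒢.related_bott h)
  | refl _ => exact Relation.EqvGen.refl _
  | symm _ _ _ ih => exact Relation.EqvGen.symm _ _ ih
  | trans _ _ _ _ _ ih ih' => exact Relation.EqvGen.trans _ _ _ ih ih'

lemma eqv_bottPow (h𝒢 : 𝒢.Lawful) {n : ℕ} {L L' : 𝒢.Triple n}
    (h : Relation.EqvGen Related L L') (k : ℕ) :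
    Relation.EqvGen Related (L.bottPow k) (L'.bottPow k) := by
  induction k with
  | zero => exact h
  | succ k ih => exact eqv_bott h𝒢 ih

lemma eqv_part_bottPow (h𝒢 : 𝒢.Lawful) (K : Subgroup Γ) {n : ℕ} (L : 𝒢.Triple n) (k : ℕ) :
    Relation.EqvGen Related ((L.bottPow k).part K) ((L.part K).bottPow k) := by
  induction k with
  | zero => exact Relation.EqvGen.refl _
  | succ k ih =>
    exact Relation.EqvGen.trans _ _ _ (Relation.EqvGen.rel _ _ (related_part_bott h𝒢 K _))
      (eqv_bott h𝒢 ih)

/-- The part of `S × B^k` of type `K` is `S_K × B^k`. -/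
theorem partR_ofSet (h𝒢 : 𝒢.Lawful) (K : Subgroup Γ) (S : Type) [Finite S] [MulAction Γ S] (k : ℕ) :
    partR h𝒢 K _ (𝒢.cl ((𝒢.ofSet S).bottPow k)) =
      𝒢.cl ((𝒢.ofSet (typePart (GSpace.ofSet (Γ := Γ) S) K).carrier).bottPow k) := by
  rw [partR_cl]
  refine cl_eq_of_eqv (Relation.EqvGen.trans _ _ _ (eqv_part_bottPow h𝒢 K _ k) ?_)
  exact eqv_bottPow h𝒢 (Relation.EqvGen.rel _ _
    (h𝒢.related_ofSet S (typePart (GSpace.ofSet (Γ := Γ) S) K))) k

end Geometry

/-- The points of `S` with stabilizers conjugate to `K`. -/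
abbrev OrbitType (Γ : Type) [Group Γ] (S : Type) [MulAction Γ S] (K : Subgroup Γ) : Type :=
  {s : S // ∃ γ : Γ, ∀ g : Γ, g • s = s ↔ γ⁻¹ * g * γ ∈ K}

lemma card_typePart (K : Subgroup Γ) (S : Type) [Finite S] [MulAction Γ S] :
    Nat.card (typePart (GSpace.ofSet (Γ := Γ) S) K).carrier = Nat.card (OrbitType Γ S K) := by
  refine Nat.card_congr (Equiv.subtypeEquivRight fun s => ?_)
  show OfType (GSpace.ofSet (Γ := Γ) S) K s ↔ _
  unfold OfType
  exact exists_congr fun γ => forall_congr' fun g => by rw [fixes_ofSet]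

namespace StolzMap

open Pool.Agent.R901.SU.Geometry

variable [Finite Γ] {𝒢 : Geometry.{u} Γ}

/-- If two finite sets have the same class in `R_{8k}^spin(pt)^Γ[B⁻¹]`, they have the same numbers of
points with stabilizers conjugate to `K`, for each `K`. -/
theorem card_eq_of_cl_eq (I : StolzMap.{u, v} 𝒢) (h𝒢 : 𝒢.Lawful) {S S' : Type} [Finite S]
    [MulAction Γ S] [Finite S'] [MulAction Γ S'] (k : ℕ)
    (h : 𝒢.cl ((𝒢.ofSet S).bottPow k) = 𝒢.cl ((𝒢.ofSet S').bottPow k)) (K : Subgroup Γ) :
    Nat.card (OrbitType Γ S K) = Nat.card (OrbitType Γ S' K) := by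
  have h0 := congrArg (fun c => I.theta _ (partR h𝒢 K _ c)) h
  simp only [partR_ofSet] at h0
  rw [I.theta_ofSet, I.theta_ofSet, I.cls_eq_iff] at h0
  obtain ⟨e, -⟩ := h0
  have h2 := e.finrank_eq
  have := Fintype.ofFinite (typePart (GSpace.ofSet (Γ := Γ) S) K).carrier
  have := Fintype.ofFinite (typePart (GSpace.ofSet (Γ := Γ) S') K).carrier
  rw [Module.finrank_fintype_fun_eq_card, Module.finrank_fintype_fun_eq_card,
    ← Nat.card_eq_fintype_card, ← Nat.card_eq_fintype_card] at h2
  rw [← card_typePart K S, ← card_typePart K S']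
  exact h2

/-- `Θ` identifies two finite sets if and only if their permutation representations are equivalent. -/
theorem theta_eq_iff (I : StolzMap.{u, v} 𝒢) {S S' : Type} [Finite S] [MulAction Γ S] [Finite S']
    [MulAction Γ S'] (k : ℕ) :
    I.theta _ (𝒢.cl ((𝒢.ofSet S).bottPow k)) = I.theta _ (𝒢.cl ((𝒢.ofSet S').bottPow k)) ↔
      RepEquiv (permRep Γ S) (permRep Γ S') := by
  rw [I.theta_ofSet, I.theta_ofSet, I.cls_eq_iff]

end StolzMap

end Pool.Agent.R901.SU
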